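import Pool.Agent.Y164.NZ.StmT
import Pool.Agent.Y713.TG.Rel

/-!
Project NZ, second part, TAU: a relation up to a point of order `(1 - s) ^ 3` is a relation.
-/

set_option autoImplicit false
set_option linter.all false

open Polynomial IsDedekindDomain

namespace Pool.Agent.Y914.NZ.TAU

open Pool.Agent.Y713.SE
open Pool.Agent.Y713.SE.Dat
open Pool.Agent.TH115.GD (pl Preserves restr preserves)
open Pool.Agent.Y164.NZ

section root

variable {k k' : Type} [Field k] [CharZero k] [Field k'] [Algebra k k'] [IsSepClosure k k']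

lemma sepP {P : k[X]} (hP : Squarefree P) : P.Separable :=
  PerfectField.separable_iff_squarefree.2 hP

omit [CharZero k] [IsSepClosure k k'] in
/-- the multiplicity of the root `θ` of `P` in `P ^ u * q`, `q` prime to `P` -/
lemma mult_root {P q : k[X]} (hP : P.Separable) (hq : IsCoprime P q) (hq0 : q ≠ 0) (u : ℕ) {θ : k'}
    (hθ : aeval θ P = 0) :
    rootMultiplicity θ ((P ^ u * q).map (algebraMap k k')) = u := by
  classical
  have hinj := (algebraMap k k').injective
  have hP0 : P ≠ 0 := hP.ne_zero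
  have hPm0 : P.map (algebraMap k k') ≠ 0 := (Polynomial.map_ne_zero_iff hinj).2 hP0
  have hqm0 : q.map (algebraMap k k') ≠ 0 := (Polynomial.map_ne_zero_iff hinj).2 hq0
  have h1 : rootMultiplicity θ (P.map (algebraMap k k')) = 1 := by
    have h2 : rootMultiplicity θ (P.map (algebraMap k k')) ≤ 1 :=
      rootMultiplicity_le_one_of_separable hP.map θ
    have h3 : 0 < rootMultiplicity θ (P.map (algebraMap k k')) := by
      rw [rootMultiplicity_pos hPm0, IsRoot, eval_map_algebraMap]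
      exact hθ
    omega
  have h2 : rootMultiplicity θ (q.map (algebraMap k k')) = 0 := by
    rw [rootMultiplicity_eq_zero_iff]
    intro h
    exfalso
    obtain ⟨a, b, hab⟩ := hq
    have h4 := congrArg (aeval θ) hab
    rw [map_add, map_mul, map_mul, hθ] at h4
    rw [IsRoot, eval_map_algebraMap] at h
    rw [h, mul_zero, mul_zero, add_zero, map_one] at h4
    exact zero_ne_one h4
  rw [Polynomial.map_mul, Polynomial.map_pow,
    rootMultiplicity_mul (mul_ne_zero (pow_ne_zero u hPm0) hqm0), h2, add_zero]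
  rw [← count_roots, roots_pow, Multiset.count_nsmul, count_roots, h1, mul_one]

end root

variable {ℓ n : ℕ} {k k' K F : Type} [Field k] [CharZero k] [Field k'] [Algebra k k']
    [IsSepClosure k k'] [Field K] [Algebra k[X] K] [IsFractionRing k[X] K] [Field F]
    [Algebra k'[X] F] [IsFractionRing k'[X] F] [Algebra K F]

/-- the differences of the branch points at the roots of `P` -/
theorem ov_root (hKF : HKF k k' K F) {D : Dat ℓ n K} {P : k[X]} {u : ℕ} {b : Fin n → k[X]}
    (hG : Gm D P u b) {θ : k'} (hθ : aeval θ P = 0) {i j : Fin n} (hij : i ≠ j) :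
    ov ℓ (pl θ) (algebraMap K F (D.e i - D.e j)) = -(u : ZMod ℓ) := by
  have hPs : P.Separable := sepP hG.sq
  have h1 : D.e i - D.e j = algebraMap k[X] K (P ^ u * (b i - b j)) := by
    rw [hG.he, hG.he, ← map_sub, ← mul_sub]
  have h2 : P ^ u * (b i - b j) ≠ 0 := by
    intro h0
    rw [h0, map_zero, sub_eq_zero] at h1
    exact hij (D.he h1)
  have hinj := (algebraMap k k').injective
  rw [h1, hKF, ov_poly ℓ θ ((Polynomial.map_ne_zero_iff hinj).2 h2),
    mult_root hPs (hG.cop i j hij) (right_ne_zero_of_mul h2) u hθ]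

/-- an invariant function on `k'`: the sum over the roots of `P` -/
lemma sum_roots (P : k[X]) (hP : P.Separable) (s : k' ≃ₐ[k] k') :
    ∃ R : Finset k', R.card = P.natDegree ∧ (∀ θ ∈ R, aeval θ P = 0) ∧
      ∀ g : k' → ZMod ℓ, ∑ θ ∈ R, g (s θ) = ∑ θ ∈ R, g θ := by
  classical
  haveI : IsSepClosed k' := IsSepClosure.sep_closed k
  have hinj := (algebraMap k k').injective
  have hP0 : P.map (algebraMap k k') ≠ 0 := (Polynomial.map_ne_zero_iff hinj).2 hP.ne_zero
  have hmem : ∀ θ : k', θ ∈ (P.map (algebraMap k k')).roots.toFinset ↔ aeval θ P = 0 := by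
    intro θ
    rw [Multiset.mem_toFinset, mem_roots hP0, IsRoot, eval_map_algebraMap]
  refine ⟨(P.map (algebraMap k k')).roots.toFinset, ?_, fun θ hθ => (hmem θ).1 hθ, fun g => ?_⟩
  · rw [Multiset.toFinset_card_of_nodup (nodup_roots hP.map)]
    have h1 : (P.map (algebraMap k k')).Splits := IsSepClosed.splits_of_separable _ hP.map
    rw [← h1.natDegree_eq_card_roots, natDegree_map]
  · have hroot : ∀ (s : k' ≃ₐ[k] k') {θ' : k'}, aeval θ' P = 0 → aeval (s θ') P = 0 := by
      intro s θ' h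
      have := aeval_algHom_apply (s : k' →ₐ[k] k') θ' P
      rw [h, map_zero] at this
      exact this
    refine Finset.sum_nbij' (i := fun θ => s θ) (j := fun θ => s.symm θ) ?_ ?_ ?_ ?_ ?_
    · intro θ hθ
      exact (hmem _).2 (hroot s ((hmem _).1 hθ))
    · intro θ hθ
      exact (hmem _).2 (hroot s.symm ((hmem _).1 hθ))
    · intro θ _
      exact s.symm_apply_apply θ
    · intro θ _
      exact s.apply_symm_apply θ
    · intro θ _
      rfl

/-- the theorem -/
theorem t : S_TAU := by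
  intro ℓ n k k' K F Ω _ _ _ _ _ _ _ _ _ _ _ _ _ _ _ _ _ _ _ _ hKF D P u b hG z hz hz2 τ A m
    hA hm
  obtain ⟨p, hp⟩ := ExpChar.exists Ω
  haveI := hp
  haveI : CharZero k' := charZero_of_injective_algebraMap (algebraMap k k').injective
  have hℓ : (ℓ : k') ≠ 0 := Nat.cast_ne_zero.2 D.hp.ne_zero
  haveI := Fact.mk D.hp
  have hn : (n : ZMod ℓ) ≠ 0 := by
    rw [Ne, ZMod.natCast_eq_zero_iff]
    exact D.hn
  have hu : (u : ZMod ℓ) ≠ 0 := by
    rw [Ne, ZMod.natCast_eq_zero_iff]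
    exact hG.hu
  have hd : (P.natDegree : ZMod ℓ) ≠ 0 := by
    rw [Ne, ZMod.natCast_eq_zero_iff]
    exact hG.deg
  have hN : Preserves K F Ω := preserves hKF
  -- the first layer
  have hχ : ∀ σ : Ω ≃ₐ[F] Ω, ∃ m' : Fin n → ℕ, (D.base Ω).phi (z σ) = cl ((D.base Ω).PT m') := by
    intro σ
    obtain ⟨m', hm'⟩ := (D.base Ω).phi_ker (p := p) (phi_eq_one_iff.1 (hz2 σ))
    exact ⟨m', by rw [hm', cl_PT]⟩
  choose χ hχ using hχ
  have hcoc : D.CocF (fun σ : Ω ≃ₐ[F] Ω => cl ((D.base Ω).PT (χ σ))) := by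
    have e1 : (fun σ : Ω ≃ₐ[F] Ω => cl ((D.base Ω).PT (χ σ))) =
        fun σ => (D.base Ω).phi (z σ) := funext fun σ => (hχ σ).symm
    rw [e1]
    refine ⟨hz.1.comp (D.base Ω).phi, fun σ τ => ?_⟩
    show (D.base Ω).phi (z (σ * τ)) =
      (D.base Ω).phi (z σ) * D.mC (rs K σ) ((D.base Ω).phi (z τ))
    rw [hz.2, map_mul, mC_phi]
  obtain ⟨kd⟩ := D.exists_KF hcoc
  have hmB : cl ((D.base Ω).PT m) * (D.base Ω).sC ((D.base Ω).phi A) = (D.base Ω).phi A :=
    phi_eq_iff.1 hm
  have hRl : D.Rl χ τ ((D.base Ω).phi A) := by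
    intro σ σ' h
    have h1 := congrArg (D.base Ω).phi (hA σ σ' h)
    rw [← mC_phi, hχ, D.mC_PT (au τ), map_mul, hχ, _root_.map_div, ← mC_phi] at h1
    exact h1
  obtain ⟨s, hs⟩ := restr hKF τ
  obtain ⟨R, hR, hR0, hRs⟩ := sum_roots (ℓ := ℓ) (k' := k') P (sepP hG.sq) s
  have hroot : ∀ θ' ∈ R, aeval (s θ') P = 0 := by
    intro θ' h
    have := aeval_algHom_apply (s : k' →ₐ[k] k') θ' P
    rw [hR0 θ' h, map_zero] at this
    exact this
  have key : ∀ i, ∑ j ∈ Finset.univ.erase i, ((m i : ZMod ℓ) - m j) = 0 := by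
    intro i
    have h1 : ∀ θ ∈ R, kd.rr D (pl (k' := k') θ) i = kd.rr D (pl (s θ)) i +
        (n : ZMod ℓ) * (-(u : ZMod ℓ) * ∑ j ∈ Finset.univ.erase i, ((m i : ZMod ℓ) - m j)) := by
      intro θ hθ
      rw [D.rr_conj hN hG.hδ hℓ kd hs hRl hmB θ i]
      congr 2
      rw [Finset.mul_sum]
      refine Finset.sum_congr rfl fun j hj => ?_
      rw [ov_root hKF hG (hroot θ hθ) (Finset.ne_of_mem_erase hj).symm]
      ring
    have h2 := Finset.sum_congr rfl h1
    rw [Finset.sum_add_distrib, hRs (fun θ => kd.rr D (pl (k' := k') θ) i), Finset.sum_const, hR,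
      nsmul_eq_mul] at h2
    have h3 := (add_eq_left.1 h2.symm)
    have h4 := (mul_eq_zero.1 h3).resolve_left hd
    have h5 := (mul_eq_zero.1 h4).resolve_left hn
    exact (mul_eq_zero.1 h5).resolve_left (neg_ne_zero.2 hu)
  have key2 : ∀ i, (n : ZMod ℓ) * (m i : ZMod ℓ) = ∑ j, (m j : ZMod ℓ) := by
    intro i
    have h1 := key i
    have h2 : ∑ j, ((m i : ZMod ℓ) - m j) = 0 := by
      rw [← Finset.add_sum_erase _ _ (Finset.mem_univ i), h1, sub_self, add_zero]
    rw [Finset.sum_sub_distrib, Finset.sum_const, Finset.card_univ, Fintype.card_fin,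
      nsmul_eq_mul] at h2
    exact sub_eq_zero.1 h2
  rw [hm]
  apply (D.base Ω).cl_PT_of_modEq
  intro i j
  have h1 : (n : ZMod ℓ) * (m i : ZMod ℓ) = (n : ZMod ℓ) * (m j : ZMod ℓ) := by
    rw [key2, key2]
  exact (ZMod.natCast_eq_natCast_iff _ _ _).1 (mul_left_cancel₀ hn h1)

end Pool.Agent.Y914.NZ.TAU
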